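import Pool.Agent.H4.Sig3

set_option autoImplicit false

namespace Pool.Agent.Results.MP_52a6f5_lc.Hard

open Pool.Agent.H11.PT Pool.Agent.H4.Sig

theorem result : NPHard Loadable := fun L hL => by
  obtain ⟨f, hf, e⟩ := hard_load L hL
  exact ⟨f, hf.polyTime_raw, fun x => (e x).2⟩

end Pool.Agent.Results.MP_52a6f5_lc.Hard
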